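import Mathlib
import Pool.Agent.H73.KQ1.Q1

/-!
# The Kakeya inequality for tubes of `ℝ³`
-/

set_option autoImplicit false

open MeasureTheory ENNReal
open scoped RealInnerProductSpace

namespace Pool.Agent.H73.KQ1.Candidate

/-- The tube of length `1`, radius `δ`, centre `c` and axis direction `e` in `ℝ³`. -/
def tube (δ : ℝ) (c e : EuclideanSpace ℝ (Fin 3)) : Set (EuclideanSpace ℝ (Fin 3)) :=
  {x | |⟪x - c, e⟫| ≤ 1 / 2 ∧ ‖(x - c) - ⟪x - c, e⟫ • e‖ ≤ δ}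

/-- For each exponent `3 / 2 < q ≤ ∞` there is a constant `C` such that for all `0 < δ < 1` and
every finite family of `δ`-tubes of `ℝ³` with `δ`-separated orientations the inequality of Q1
holds. For `q = ∞` the exponents of `δ` and `N` are `0` and `1`. -/
theorem result (hMB : Pool.KFIN.MB 2 3) (q : ENNReal) (hq : ENNReal.ofReal (3 / 2) < q) :
    ∃ C : ℝ, ∀ δ : ℝ, 0 < δ → δ < 1 →
      ∀ (N : ℕ) (c e : Fin N → EuclideanSpace ℝ (Fin 3)),
        (∀ i, ‖e i‖ = 1) → (∀ i j, i ≠ j → δ ≤ ‖e i - e j‖) →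
        eLpNorm (fun x => ∑ i, (tube δ (c i) (e i)).indicator (fun _ => (1 : ℝ)) x) q volume ≤
        ENNReal.ofReal (C * (δ ^ (2 / q.toReal) * (N : ℝ) ^ (1 - 1 / (2 * q.toReal)))) := by
  obtain ⟨C, hC⟩ := Pool.KFIN.q1_three hMB hq
  refine ⟨C, ?_⟩
  intro δ hδ hδ1 N c e he1 he2
  have h1 := hC δ hδ hδ1 N c e he1 he2
  have e2 : q.toReal * ((2 : ℕ) : ℝ) = 2 * q.toReal := by push_cast; ring
  rw [e2] at h1
  exact_mod_cast h1

end Pool.Agent.H73.KQ1.Candidate
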